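import Pool.Agent.Helper52.SX.Goals
import Pool.Agent.Helper61.CS.ALN

/-! Packet SX-FNT: the end of the search, for tuples. -/

set_option autoImplicit false

namespace Pool.Agent.Helper61.SX

open Pool.Agent.Helper81.CC Pool.Agent.Helper78.DT Pool.Agent.Helper51.ZP
open Pool.Agent.Helper65.CS Pool.Agent.Helper52.SX Pool.Agent.Helper61.CS

theorem fnt : FntStmt := by
  intro n W l z t hI hal hpos
  obtain ⟨_, _, _, _, hval⟩ := hI
  have hne : 0 < Nat.card {r : Fin n → Bool // tv r t.2 = true} := by
    rcases Nat.eq_zero_or_pos (Nat.card {r : Fin n → Bool // tv r t.2 = true}) with h | h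
    · exfalso
      unfold fract at hpos
      rw [h] at hpos
      simp at hpos
    · exact h
  have hne2 := (Nat.card_pos_iff.1 hne).1
  obtain ⟨⟨x, hx⟩⟩ := hne2
  have hcov : ∀ v : Fin n, ((v : ℕ), true) ∈ t.1 ∨ ((v : ℕ), false) ∈ t.1 := by
    intro v
    by_contra h
    have h1 : (v : ℕ) ∈ al n t.1 := mem_al.2 ⟨v.2, fun h' => h (Or.inl h'), fun h' => h (Or.inr h')⟩
    rw [hal] at h1
    exact List.not_mem_nil h1
  refine ⟨fun v => t.1.contains ((v : ℕ), true), ?_, ?_⟩
  · have h2 : ovr t.1 x = fun v : Fin n => t.1.contains ((v : ℕ), true) := by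
      funext v
      unfold ovr
      by_cases h1 : ((v : ℕ), true) ∈ t.1
      · rw [if_pos h1]
        exact (List.contains_iff_mem.2 h1).symm
      · rw [if_neg h1]
        rcases hcov v with h3 | h3
        · exact absurd h3 h1
        · rw [if_pos h3]
          symm
          rw [← Bool.not_eq_true, List.contains_iff_mem]
          exact h1
    rw [← h2, ← hval x]
    exact hx
  · unfold asg
    apply List.ext_getElem
    · simp
    · intro i h1 h2
      simp

end Pool.Agent.Helper61.SX
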